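import Pool.Agent.Lib.MP_4da284_al.H78Growth

set_option autoImplicit false

namespace Pool.Agent.Results.MP_4da284_al.WeylKernel

open Pool.Agent.Lib.MP_4da284_al Polynomial

universe u

/-- Over an uncountable algebraically closed field of characteristic zero, a primitive ideal of
the enveloping algebra of the polynomial vector fields on the line is the kernel of an algebra map
to a Weyl algebra if and only if it is nonzero. -/
theorem result (k : Type u) [Field k] [IsAlgClosed k] [CharZero k] [Uncountable k]
    (Q : Ideal (UniversalEnvelopingAlgebra k (Derivation k k[X] k[X])))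
    (hQ : IsPrimitiveIdeal Q) :
    (∃ m ≥ 1, ∃ φ : UniversalEnvelopingAlgebra k (Derivation k k[X] k[X]) →ₐ[k] Weyl k m,
      RingHom.ker φ = Q) ↔ Q ≠ ⊥ :=
  ⟨fun ⟨m, _, φ, h⟩ => h ▸ Q1.ker_ne_bot m φ, Q1.main Q hQ⟩

end Pool.Agent.Results.MP_4da284_al.WeylKernel
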